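import Pool.Agent.Helper2.PN.Dims

/-!
Polarised rational Hodge structures with any endomorphism algebra such that, for every block, a conjugate has the Hodge numbers
of no tensor product with a conjugate as a factor, and has three Hodge numbers not in an explicit list, or a large Hodge
number, or a rank not in certain thin sets, which contain no prime number greater than seven: the Mumford-Tate group is as
large as possible, and so is the group of an `ℓ`-adic representation with the same Hodge numbers. For example all surfaces for
which every block has a conjugate whose Hodge numbers have no common divisor and are not in the list; or all blocks of prime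
rank `r > 7` which have a conjugate with a Hodge number `h`, `1 < h < r` (`prime_ranks`).
-/

open Matrix MH

namespace Pool.Agent.Results.MP_b8862a_ag.AlmostAllBlocks

/-- Let `E = ExSelf` and `E' = ExAll` be the following sets of natural numbers: the numbers less than nine, the proper powers,
and the dimensions of the irreducible modules of simple Lie algebras other than `sl_2` (`IrrSimple`), self-dual modules for `E`
(`SelfDim`), all modules for `E'` (`IrrDim`), except the standard modules of the special linear, orthogonal and symplectic Lie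
algebras. They have at most `C X ^ (1 / 2)` and `C X ^ (2 / 3)` elements below `X` for every `X`, and contain no prime number
greater than seven and no positive number `n` with a prime factor `q` such that `50 n ≤ q ^ 2`. (`m ^ 2 - 1` and
`a b (a + b) / 2` are dimensions of irreducible representations of `SL_m` and `SL_3`: the exponents cannot be smaller; `7` is
the dimension of a representation of `G_2`.)

Let `V = ℚ^n` carry a rational Hodge structure of weight `w` (given by the projections `P p` to the subspaces
`V^{p, w-p}`) polarised by the form with matrix `Q`. The blocks are the primitive idempotents `e` of the complexified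
endomorphism algebra; `e V` is an irreducible constituent of `V ⊗ ℂ` over the Mumford-Tate group. Suppose that every block `e`
of rank `r ≥ 2` satisfies (0), or there is an automorphism `σ` of `ℂ` such that the Hodge numbers `h p = rank (σ (e) P p)` of
the conjugate block satisfy (★) and one of (i), (ii), (iii):

(0) `w = 2`, `V = V^{2,0} + V^{1,1} + V^{0,2}`, and `9 ≤ r`, `(dim V^{2,0} + 1) ^ 2 ≤ r`, or `5 ≤ r`, `dim V^{2,0} ≤ 2` and `e`
is not self-dual. (For example `V = H ^ 2` of a surface with geometric genus at most two and `9 ≤ r`.)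

(★) For no automorphism `τ` of `ℂ` is the polynomial `∑ rank (τ (e) P p) X ^ p` a product `f g` of Laurent polynomials with
non-negative integral coefficients, palindromic if `e` is self-dual, such that `g` has at least two terms and `g (1)` divides
all the numbers `h p`. (This holds if the numbers `h p` have no common divisor. If it fails for `σ`, because of `τ`, the Hodge
numbers of these two conjugates do not exclude that `e V` is a tensor product of representations of dimensions `r / g (1)` and
`g (1)`.)

(i) There are `i` and `j` such that `h p = 0` for `p ≠ i, (i + j) / 2, j`, and `a = h i` and `c = h j` are positive (`i + j` may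
be odd); put `b = r - a - c`; and either the polynomial `∑ (h p) X ^ p` is not a product of two polynomials with non-negative
integral coefficients and at least two terms, `a ≠ c` or `b > 0` and `r ≥ 9`, and `(a, b, c)` is not in the list `L2.ExcU`; or
`b > 0`, `r ≥ 9` and `e` has an invariant symmetric form and `(a, b)` is not in the list `LT.Exc`, or an invariant alternating
form and `(a, b)` is not in the list `L2.ExcS`. (The lists consist of the numbers of irreducible modules of
semisimple groups other than `SL`, `SO`, `Sp` with the standard representation.)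

(ii) The numbers `h p` are not `1` on an arithmetic progression and `0` elsewhere; and either `e` is self-dual, its rank is not
in `E` and the polynomial `∑ (h p) X ^ p` is not a product of two palindromic polynomials with non-negative integral
coefficients and at least two terms, or the rank of `e` is not in `E'` and the polynomial is not a product of two polynomials
with non-negative integral coefficients and at least two terms.

(iii) One number `h p` is at least `r - 1`, or `(r - h p + 1) ^ 2 ≤ r`; or `e` has an invariant symmetric form, `w = 2 m`, and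
the sum `s` of the numbers `h p` with `p > m` satisfies `2 ≤ s` and `s ^ 2 < h m`.

If the endomorphisms of `V` are the rational numbers, (★) is not necessary in (ii), but then only for (1) and (2 B).

(1) The Mumford-Tate group contains the group `D` of all isometries of `Q` that commute with all matrices spanning a line
stable under the Mumford-Tate group and have determinant one on all the blocks, and `D` contains all the commutators of the
Mumford-Tate group. If all the blocks are self-dual, the Mumford-Tate group consists of all the elements `g` that commute with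
the endomorphisms of `V` and satisfy `Q (g u, g v) = z ^ 2 Q (u, v)`, `z = 1` if `w = 0`, with `det g = z ^ r` on every block
of rank `r`.
(2) Let `Γ` be a group of similitudes of `ℚ_ℓ^n` such that a subgroup of finite index preserves all lines of matrices stable
under the Mumford-Tate group, such that for every automorphism `σ` of `ℂ` there is a Hodge-Tate decomposition with the same
numbers on the blocks as the conjugate by `σ` of the Hodge decomposition, and such that the tensors of weight zero for all
these Hodge-Tate decompositions are fixed by a subgroup of finite index (a property of Galois groups, if the endomorphisms of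
`V` are algebraic: Serre, Pink). If (A) the subgroups of finite index of `Γ` are
semisimple and preserve no other lines of matrices than those stable under the Mumford-Tate group, or (B) `Γ` contains a
monodromy group, with an element without scalar power on every block of rank at least two, then the tensors fixed by subgroups
of finite index of `Γ` are exactly the tensors fixed by the Mumford-Tate group. -/
theorem result :
    (∃ C : ℝ, ∀ X : ℕ, (Nat.card {n : Fin X // (n : ℕ) ∈ ExSelf} : ℝ) ≤ C * Real.sqrt X) ∧
    (∃ C : ℝ, ∀ X : ℕ, (Nat.card {n : Fin X // (n : ℕ) ∈ ExAll} : ℝ) ≤ C * (X : ℝ) ^ (2 / 3 : ℝ)) ∧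
    (∀ q : ℕ, q.Prime → 7 < q → q ∉ ExSelf ∧ q ∉ ExAll) ∧
    (∀ n q : ℕ, 0 < n → q.Prime → q ∣ n → 50 * n ≤ q ^ 2 → n ∉ ExSelf ∧ n ∉ ExAll) ∧
    ∀ (n : Type) [Fintype n] [DecidableEq n] (w : ℤ) (Q : Matrix n n ℚ) (S : Finset ℤ) (P : ℤ → Matrix n n ℂ),
      IsHW w Q S P →
      (∀ e, IsBlk P e → 2 ≤ e.rank → OkL ExSelf ExAll w Q S P e ∨
        (∃ σ : ℂ ≃+* ℂ, RankB ExSelf ExAll w Q P e σ) ∧
          ∀ A : Matrix n n ℚ, (∀ p, toC A * P p = P p * toC A) → ∃ c : ℚ, A = c • (1 : Matrix n n ℚ)) →
      (∀ g : GL n ℂ, InD Q S P (g : Matrix n n ℂ) → g ∈ MT S P) ∧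
      (∀ g ∈ MT S P, ∀ h ∈ MT S P, InD Q S P ((g * h * g⁻¹ * h⁻¹ : GL n ℂ) : Matrix n n ℂ)) ∧
      ((∀ e, IsBlk P e → DualB Q P e) → ∀ g : GL n ℂ, g ∈ MT S P ↔
        (∀ x ∈ EC P, (g : Matrix n n ℂ) * x = x * (g : Matrix n n ℂ)) ∧
        ∃ z : ℂ, (w = 0 → z = 1) ∧ (g : Matrix n n ℂ)ᵀ * toC Q * (g : Matrix n n ℂ) = z ^ 2 • toC Q ∧
          ∀ e, IsBlk P e → ((g : Matrix n n ℂ) * e + (1 - e)).det = z ^ e.rank) ∧
      ∀ (ℓ : ℕ) [Fact ℓ.Prime] (ι : ℚ_[ℓ] →+* ℂ) (Γ : Subgroup (GL n ℚ_[ℓ])),
        IsGalG w Q S P (Γ.map (Matrix.GeneralLinearGroup.map ι)) →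
        (IsTateN S P (Γ.map (Matrix.GeneralLinearGroup.map ι)) ∧ ∀ e, IsBlk P e → 2 ≤ e.rank → OkL ExSelf ExAll w Q S P e) ∨
        (∃ D : Subgroup (GL n ℚ), IsMonB Q S P D ∧
          D.map (Matrix.GeneralLinearGroup.map (algebraMap ℚ ℚ_[ℓ])) ≤ Γ) →
        ∀ (a b : ℕ) (t : (Fin a ⊕ Fin b → n) → ℂ),
          IsTateTensor (Γ.map (Matrix.GeneralLinearGroup.map ι)) a b t ↔ MTfix S P a b t :=
  ⟨half_self, tt_all, fun _ hq h7 => prime_all hq h7, fun _ _ hn hq hd h50 => prime50_all hn hq hd h50,
    fun _ _ _ _ _ _ _ H hdom => by
      obtain ⟨k1, k2, k3, k4⟩ := master43L exP_self Set.subset_union_left (fun _ _ => crUP_all) fullP_all H hdom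
      exact ⟨k1, k2, k3, fun ℓ _ ι Γ G hAB => k4 ℓ ι Γ G (hAB.symm.imp_right And.symm)⟩⟩

/-- The conclusions of `result` hold if every block of rank at least two has prime rank `r > 7` and a conjugate with a Hodge
number `h`, `1 < h < r`. -/
theorem prime_ranks {n : Type} [Fintype n] [DecidableEq n] {w : ℤ} {Q : Matrix n n ℚ} {S : Finset ℤ}
    {P : ℤ → Matrix n n ℂ} (H : IsHW w Q S P)
    (hP : ∀ e, IsBlk P e → 2 ≤ e.rank → e.rank.Prime ∧ 7 < e.rank ∧
      ∃ (σ : ℂ ≃+* ℂ) (p : ℤ), 1 < (e.map σ * P p).rank ∧ (e.map σ * P p).rank < e.rank) :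
    (∀ g : GL n ℂ, InD Q S P (g : Matrix n n ℂ) → g ∈ MT S P) ∧
    (∀ g ∈ MT S P, ∀ h ∈ MT S P, InD Q S P ((g * h * g⁻¹ * h⁻¹ : GL n ℂ) : Matrix n n ℂ)) ∧
    ((∀ e, IsBlk P e → DualB Q P e) → ∀ g : GL n ℂ, g ∈ MT S P ↔
      (∀ x ∈ EC P, (g : Matrix n n ℂ) * x = x * (g : Matrix n n ℂ)) ∧
      ∃ z : ℂ, (w = 0 → z = 1) ∧ (g : Matrix n n ℂ)ᵀ * toC Q * (g : Matrix n n ℂ) = z ^ 2 • toC Q ∧
        ∀ e, IsBlk P e → ((g : Matrix n n ℂ) * e + (1 - e)).det = z ^ e.rank) ∧
    ∀ (ℓ : ℕ) [Fact ℓ.Prime] (ι : ℚ_[ℓ] →+* ℂ) (Γ : Subgroup (GL n ℚ_[ℓ])),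
      IsGalG w Q S P (Γ.map (Matrix.GeneralLinearGroup.map ι)) →
      IsTateN S P (Γ.map (Matrix.GeneralLinearGroup.map ι)) ∨
      (∃ D : Subgroup (GL n ℚ), IsMonB Q S P D ∧
        D.map (Matrix.GeneralLinearGroup.map (algebraMap ℚ ℚ_[ℓ])) ≤ Γ) →
      ∀ (a b : ℕ) (t : (Fin a ⊕ Fin b → n) → ℂ),
        IsTateTensor (Γ.map (Matrix.GeneralLinearGroup.map ι)) a b t ↔ MTfix S P a b t := by
  have hok : ∀ e, IsBlk P e → 2 ≤ e.rank → OkL ExSelf ExAll w Q S P e := by
    intro e he h2
    obtain ⟨hp, h7, σ, p, h3, h4⟩ := hP e he h2
    exact okL_of_prime2 H he hp h7 h3 h4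
  obtain ⟨k1, k2, k3, k4⟩ := master43L exP_self Set.subset_union_left (fun _ _ => crUP_all) fullP_all H
    fun e he h2 => Or.inl (hok e he h2)
  refine ⟨k1, k2, k3, fun ℓ _ ι Γ G hAB => k4 ℓ ι Γ G ?_⟩
  rcases hAB with hT | hD
  · exact Or.inr ⟨hok, hT⟩
  · exact Or.inl hD

end Pool.Agent.Results.MP_b8862a_ag.AlmostAllBlocks
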