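import Pool.Agent.Helper2.HY.Plane

/-!
Polarised rational Hodge structures of even weight with the primitive Hodge numbers of a smooth hypersurface of even dimension
or of a double plane: if the endomorphisms are the rational numbers, the Mumford-Tate group is the group of all similitudes
(the connected one), and so is the group of an `ℓ`-adic representation with the same numbers.
-/

open Matrix MH

namespace Pool.Agent.Results.MP_b8862a_ag.EvenHypersurfaces

open Classical in
/-- Let `N ≥ 2` be even, and `hyp N d p` the number of the vectors of `N + 2` integers between `1` and `d - 1` with the sum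
`(p + 1) d`. This is the primitive Hodge number `h^{p, N - p}` of the smooth hypersurfaces of degree `d` in projective space of
dimension `N + 1`. A degree `d` is good if `n + 1` is not a square, `n = ∑ hyp N d p`, and, if `N ≠ 2`, some prime number
`q > N + 2` divides `d - 2` exactly once.

(1) The good degrees have density one.

(2) Let `V = ℚ^n` carry a rational Hodge structure of weight `N` (given by the projections `P p` to the subspaces
`V^{p, N-p}`) polarised by the form with matrix `Q`, the endomorphisms of which are the rational numbers. Suppose that the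
Hodge numbers are the numbers `hyp N d p` for a good `d ≥ dz N` (`10 ^ 28` for `N = 2`, otherwise `10 ^ 57 (N + 2) ^ 8`), or
that `N = 2` and they are the primitive Hodge numbers of a double plane with a smooth branch curve of degree
`2 e ≥ 2 * 10 ^ 28`. Then the Mumford-Tate group consists of all `g` with `gᵀ Q g = z ^ 2 Q` and `det g = z ^ n`.

Moreover let `Γ` be a group of similitudes of `ℚ_ℓ^n` with a Hodge-Tate decomposition of the same ranks. If `Γ` contains a
monodromy group with an element of infinite order, or if the Hodge numbers have no common divisor, `Γ` is semisimple and its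
complex Tate tensors of type `(1, 1)` are fixed by the Mumford-Tate group, then the tensors of all types fixed by subgroups of
finite index of `Γ` are exactly the tensors fixed by the Mumford-Tate group. -/
theorem result :
    (∀ N : ℕ, Even N → 2 ≤ N → Filter.Tendsto
      (fun x : ℕ => (((Finset.range x).filter fun d => HY.Good N d).card : ℝ) / x) Filter.atTop (nhds 1)) ∧
    ∀ (n : Type) [Fintype n] [DecidableEq n] (N : ℕ) (Q : Matrix n n ℚ) (S : Finset ℤ) (P : ℤ → Matrix n n ℂ),
      Even N → 2 ≤ N → IsHW (N : ℤ) Q S P →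
      (∀ A : Matrix n n ℚ, (∀ p, toC A * P p = P p * toC A) → ∃ c : ℚ, A = c • (1 : Matrix n n ℚ)) →
      (∃ d, HY.dz N ≤ d ∧ HY.Good N d ∧ ∀ p, (P p).rank = HY.hyp N d p) ∨
        (N = 2 ∧ ∃ e : ℕ, 10 ^ 28 ≤ e ∧ ∀ p, (P p).rank = HY.dpl e p) →
      (∀ g : GL n ℂ, g ∈ MT S P ↔ IsGQ (N : ℤ) Q g) ∧
      ∀ (ℓ : ℕ) [Fact ℓ.Prime] (ι : ℚ_[ℓ] →+* ℂ) (Γ : Subgroup (GL n ℚ_[ℓ])) (R : ℤ → Matrix n n ℂ),
        IsGalP (N : ℤ) Q S P (Γ.map (Matrix.GeneralLinearGroup.map ι)) R →
        (∃ D : Subgroup (GL n ℚ), IsMon Q S P D ∧
          D.map (Matrix.GeneralLinearGroup.map (algebraMap ℚ ℚ_[ℓ])) ≤ Γ) ∨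
        ((∀ d : ℕ, (∀ p, d ∣ (P p).rank) → d = 1) ∧ SemiS Γ ∧
          ∀ t, IsTateTensor (Γ.map (Matrix.GeneralLinearGroup.map ι)) 1 1 t → MTfix S P 1 1 t) →
        ∀ (a b : ℕ) (t : (Fin a ⊕ Fin b → n) → ℂ),
          IsTateTensor (Γ.map (Matrix.GeneralLinearGroup.map ι)) a b t ↔ MTfix S P a b t := by
  refine ⟨fun N hN h2 => (HY.dens_hyp hN h2).congr fun x => ?_, fun n _ _ N Q S P hN h2 H hEnd hfam => ?_⟩
  · congr 2
    exact congrArg Finset.card (Finset.filter_congr fun d _ => by rw [HY.Good, HY.prm])
  · have hw : Even (N : ℤ) := by exact_mod_cast hN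
    refine HY.concl hw H hEnd ?_
    rcases hfam with ⟨d, hd, hgood, hP⟩ | ⟨rfl, e, he, hP⟩
    · exact HY.nums_hyp hN h2 hd hgood H hP
    · exact HY.nums_plane he H hP

end Pool.Agent.Results.MP_b8862a_ag.EvenHypersurfaces
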