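import Pool.Agent.Helper55.UV.TwoM
import Pool.Agent.Helper55.UG.TateGQ
import Pool.Agent.Helper98.PGN.Ten2
import Pool.Agent.Helper24.PGN.GQ
import Pool.Agent.Helper2.PGN.Main
import Pool.Agent.Helper2.PGN.G2
import Pool.Agent.Helper94.SH.Main5
import Pool.Agent.Helper27.PGN.Fin

/-!
Polarised rational Hodge structures of even weight with three Hodge numbers `s, h, s`, `s` a prime number, and only
scalar endomorphisms: the Mumford-Tate group is the group of all similitudes except for an explicit list of numbers `h`,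
and all the numbers of the list are exceptions.
-/

open Matrix MH

namespace Pool.Agent.Results.MP_b8862a_ag.PrimeGeometricGenus

/-- The exceptional numbers `h` for a prime number `s`: `2 s`, `s² - 2 s`, `s²`, `(s² - s + 2) / 2` if `s > 2`, and
`3` if `s = 2`, `8` if `s = 3`. -/
def Exc (s h : ℕ) : Prop :=
  h = 2 * s ∨ h = s ^ 2 - 2 * s ∨ h = s ^ 2 ∨ (2 < s ∧ 2 * h + s = s ^ 2 + 2) ∨ (s = 2 ∧ h = 3) ∨ (s = 3 ∧ h = 8)

/-- all the numbers of the list are exceptions -/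
theorem sharp {s h : ℕ} (hs : s.Prime) (hh : 0 < h) (hx : Exc s h) :
    ∃ (n : Type) (_ : Fintype n) (_ : DecidableEq n) (Q : Matrix n n ℚ) (P : ℤ → Matrix n n ℂ),
      IsHW 2 Q {0, 1, 2} P ∧
      (∀ A : Matrix n n ℚ, (∀ p, toC A * P p = P p * toC A) → ∃ c : ℚ, A = c • (1 : Matrix n n ℚ)) ∧
      (P 2).rank = s ∧ (P 1).rank = h ∧ ∃ g : GL n ℂ, IsGQ 2 Q g ∧ g ∉ MT {0, 1, 2} P := by
  have h2 := hs.two_le
  have hor : s = 2 ∨ 3 ≤ s := by omega
  have hc : h = 2 * s ∨ (3 ≤ s ∧ h = s ^ 2 - 2 * s) ∨ (3 ≤ s ∧ h = s ^ 2) ∨ (3 ≤ s ∧ 2 * h + s = s ^ 2 + 2) ∨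
      (s = 2 ∧ h = 3) ∨ (s = 3 ∧ h = 8) := by
    unfold Exc at hx
    rcases hor with rfl | h3
    · rcases hx with h4 | h4 | h4 | h4 | h4 | h4 <;> omega
    · tauto
  rcases hc with rfl | ⟨h3, rfl⟩ | ⟨h3, rfl⟩ | ⟨h3, h4⟩ | ⟨rfl, rfl⟩ | ⟨rfl, rfl⟩
  · obtain ⟨n, i1, i2, Q, P, H, hEnd, r2, r1, -, g, g1, g2, g3⟩ := PG98.sharp_two_s s h2
    exact ⟨n, i1, i2, Q, P, H, hEnd, r2, r1, g, isGQ_of24 g1 g2, g3⟩
  · obtain ⟨n, i1, i2, Q, P, H, hEnd, r2, r1, -, hg⟩ := sharp_norm s h3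
    exact ⟨n, i1, i2, Q, P, H, hEnd, r2, r1, hg⟩
  · obtain ⟨n, i1, i2, Q, P, H, hEnd, r2, r1, -, hg⟩ := Her27.sharp s h3
    exact ⟨n, i1, i2, Q, P, H, hEnd, r2, r1, hg⟩
  · obtain ⟨n, i1, i2, Q, P, H, hEnd, r2, r1, -, -, hg⟩ := sharp_K3_GQ24 s h h3 h4
    exact ⟨n, i1, i2, Q, P, H, hEnd, r2, r1, hg⟩
  · obtain ⟨n, i1, i2, Q, P, H, hEnd, r2, r1, -, hg⟩ := sharp_G2
    exact ⟨n, i1, i2, Q, P, H, hEnd, r2, r1, hg⟩
  · obtain ⟨n, i1, i2, Q, P, H, hEnd, r2, r1, -, g, g1, g2, g3⟩ := SH94.sharp_three_eight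
    exact ⟨n, i1, i2, Q, P, H, hEnd, r2, r1, g, isGQ_of24 g1 g2, g3⟩

/-- Let `s` be a prime number and `h > 0`. The number `h` is exceptional (`Exc s h`) if it is one of the numbers
`2 s`, `s² - 2 s`, `s²`, `(s² - s + 2) / 2` (only if `s > 2`), or if `(s, h)` is `(2, 3)` or `(3, 8)`.

(1) There is a polarised rational Hodge structure of weight two with the Hodge numbers `s, h, s`, only scalar endomorphisms
and a Mumford-Tate group smaller than the group `G_Q` of all similitudes `g` (`gᵀ Q g = z ^ 2 Q`, `det g = z ^ n`) if and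
only if `h` is exceptional.

(2) Let `h` be not exceptional, and let `V = ℚ^n` carry a rational Hodge structure of even weight `w` (given by the
projections `P p` to the subspaces `V^{p, w-p}`) polarised by the form with matrix `Q`, the endomorphisms of which are the
rational numbers, with three Hodge numbers `s, h, s`. Then the Mumford-Tate group is `G_Q`. Moreover let `Γ` be a group of
similitudes of `ℚ_ℓ^n` with a Hodge-Tate decomposition of the same ranks. If `Γ` contains a monodromy group with an element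
of infinite order, or if `s` does not divide `h`, `Γ` is semisimple and its complex Tate tensors of type `(1, 1)` are fixed
by the Mumford-Tate group, then the tensors of all types fixed by subgroups of finite index of `Γ` are exactly the tensors
fixed by the Mumford-Tate group. -/
theorem result (s h : ℕ) (hs : s.Prime) (hh : 0 < h) :
    ((∃ (n : Type) (_ : Fintype n) (_ : DecidableEq n) (Q : Matrix n n ℚ) (S : Finset ℤ) (P : ℤ → Matrix n n ℂ),
      IsHW 2 Q S P ∧ (∀ A : Matrix n n ℚ, (∀ p, toC A * P p = P p * toC A) → ∃ c : ℚ, A = c • (1 : Matrix n n ℚ)) ∧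
      (P 2).rank = s ∧ (P 1).rank = h ∧ (∀ p, p ≠ 2 → p ≠ 1 → p ≠ 0 → P p = 0) ∧
      ¬ ∀ g : GL n ℂ, g ∈ MT S P ↔ IsGQ 2 Q g) ↔ Exc s h) ∧
    (¬ Exc s h → ∀ (n : Type) [Fintype n] [DecidableEq n] (w : ℤ) (Q : Matrix n n ℚ) (S : Finset ℤ)
      (P : ℤ → Matrix n n ℂ), IsHW w Q S P →
      (∀ A : Matrix n n ℚ, (∀ p, toC A * P p = P p * toC A) → ∃ c : ℚ, A = c • (1 : Matrix n n ℚ)) →
      ∀ a b c : ℤ, a + b = w → 2 * c = w → c < a → (P a).rank = s → (P c).rank = h →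
      (∀ p, p ≠ a → p ≠ c → p ≠ b → P p = 0) →
      (∀ g : GL n ℂ, g ∈ MT S P ↔ IsGQ w Q g) ∧
      ∀ (ℓ : ℕ) [Fact ℓ.Prime] (ι : ℚ_[ℓ] →+* ℂ) (Γ : Subgroup (GL n ℚ_[ℓ])) (R : ℤ → Matrix n n ℂ),
        IsGalP w Q S P (Γ.map (Matrix.GeneralLinearGroup.map ι)) R →
        (∃ D : Subgroup (GL n ℚ), IsMon Q S P D ∧
          D.map (Matrix.GeneralLinearGroup.map (algebraMap ℚ ℚ_[ℓ])) ≤ Γ) ∨
        (¬ s ∣ h ∧ SemiS Γ ∧
          ∀ t, IsTateTensor (Γ.map (Matrix.GeneralLinearGroup.map ι)) 1 1 t → MTfix S P 1 1 t) →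
        ∀ (k l : ℕ) (t : (Fin k ⊕ Fin l → n) → ℂ),
          IsTateTensor (Γ.map (Matrix.GeneralLinearGroup.map ι)) k l t ↔ MTfix S P k l t) := by
  have key : ¬ Exc s h → ∀ (n : Type) [Fintype n] [DecidableEq n] (w : ℤ) (Q : Matrix n n ℚ) (S : Finset ℤ)
      (P : ℤ → Matrix n n ℂ), IsHW w Q S P →
      (∀ A : Matrix n n ℚ, (∀ p, toC A * P p = P p * toC A) → ∃ c : ℚ, A = c • (1 : Matrix n n ℚ)) →
      ∀ a b c : ℤ, a + b = w → 2 * c = w → c < a → (P a).rank = s → (P c).rank = h →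
      (∀ p, p ≠ a → p ≠ c → p ≠ b → P p = 0) →
      (∀ g : GL n ℂ, g ∈ MT S P ↔ IsGQ w Q g) ∧
      ∀ (ℓ : ℕ) [Fact ℓ.Prime] (ι : ℚ_[ℓ] →+* ℂ) (Γ : Subgroup (GL n ℚ_[ℓ])) (R : ℤ → Matrix n n ℂ),
        IsGalP w Q S P (Γ.map (Matrix.GeneralLinearGroup.map ι)) R →
        (∃ D : Subgroup (GL n ℚ), IsMon Q S P D ∧
          D.map (Matrix.GeneralLinearGroup.map (algebraMap ℚ ℚ_[ℓ])) ≤ Γ) ∨
        (¬ s ∣ h ∧ SemiS Γ ∧
          ∀ t, IsTateTensor (Γ.map (Matrix.GeneralLinearGroup.map ι)) 1 1 t → MTfix S P 1 1 t) →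
        ∀ (k l : ℕ) (t : (Fin k ⊕ Fin l → n) → ℂ),
          IsTateTensor (Γ.map (Matrix.GeneralLinearGroup.map ι)) k l t ↔ MTfix S P k l t := by
    intro hx n _ _ w Q S P H hEnd a b c haw hcw hca ha hc hP
    subst ha
    subst hc
    have hx' : ¬ ExcAll55 (P a).rank (P c).rank := by
      have h2 := hs.two_le
      unfold Exc at hx
      unfold ExcAll55 Exc55
      rintro (⟨h3, h4⟩ | ⟨h3, h4⟩)
      · apply hx
        have h5 : 2 < (P a).rank := by omega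
        tauto
      · rw [h3] at hx
        omega
    have hcard := H.card_three55 (a := a) (b := b) (c := c) (by omega) (by omega) (by omega) hP
    have hn : Nonempty n := Fintype.card_pos_iff.1 (by omega)
    have h3 := H.all_LH55 hEnd haw hcw hca hP hs hh.ne' hx'
    have hMT : ∀ g : GL n ℂ, g ∈ MT S P ↔ IsGQ w Q g := fun g => H.MT_full2 h3 g
    have hbr : (P b).rank = (P a).rank := by
      have e1 := H.rank_refl55 a
      rwa [show w - a = b by omega] at e1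
    have hs3 := hs.two_le
    refine ⟨hMT, fun ℓ _ ι Γ R G hor k l t => ?_⟩
    rcases hor with ⟨D, hD, hle⟩ | ⟨hsh, hss, h11⟩
    · refine H.mon55 h3 (by omega) G hD ?_ k l t
      refine le_trans (le_of_eq ?_) (Subgroup.map_mono hle)
      rw [mapC, Subgroup.map_map]
      congr 1
      ext g i j
      simp [Matrix.GeneralLinearGroup.map_apply]
    · have h4 := G.all_LG55 H (vIrr_of_potIrr ι (potIrr_of_t11 ι hss H hEnd h11)) haw hcw hca hP hs hsh hx'
      rw [G.tate_GQ55 H h4 k l t]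
      exact ⟨fun h5 g hg => h5 g ((hMT g).1 hg), fun h5 g hg => h5 g ((hMT g).2 hg)⟩
  refine ⟨⟨?_, fun hx => ?_⟩, key⟩
  · rintro ⟨n, _, _, Q, S, P, H, hEnd, h2, h1, hP, hMT⟩
    by_contra hx
    exact hMT (key hx n 2 Q S P H hEnd 2 0 1 (by norm_num) (by norm_num) (by norm_num) h2 h1 hP).1
  · obtain ⟨n, i1, i2, Q, P, H, hEnd, h2, h1, g, hg, hgM⟩ := sharp hs hh hx
    refine ⟨n, i1, i2, Q, {0, 1, 2}, P, H, hEnd, h2, h1, fun p p2 p1 p0 => H.supp p ?_, fun hMT => hgM ((hMT g).2 hg)⟩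
    simp only [Finset.mem_insert, Finset.mem_singleton]
    omega

end Pool.Agent.Results.MP_b8862a_ag.PrimeGeometricGenus
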